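import Mathlib
import Pool.Prelude.Def_F_c31e40fa
import Pool.Agent.TH653.MB.A14

set_option autoImplicit false

open Filter Topology N62a1eb23

namespace Pool.Agent.Results.MP_c6f924_an.DerivativeMeans

open Pool.Agent.H713R2

/-- The derivative of the exterior conformal map `ψ` of the Mandelbrot set (the map exists). Write
`log ψ' z = ∑ a m / z ^ m` with `a 0 = 0`. There are `c > 0` and `r₀ > 1` such that for every `r`
with `1 < r < r₀`

(1) `(r - 1) |ψ'' / ψ'| ≥ c` on a set of angles of measure at least `c` on the circle of radius `r`;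

(2) the mean square of `log ψ'` over the circle of radius `r` is at least `c log (1 / (r - 1))`. -/
theorem result :
    (∃ ψ : ℂ → ℂ, IsExteriorMap mandelbrotSet ψ) ∧
    ∀ ψ : ℂ → ℂ, IsExteriorMap mandelbrotSet ψ →
      ∃ a : ℕ → ℂ, a 0 = 0 ∧
        (∀ z : ℂ, 1 < ‖z‖ → Summable (fun m : ℕ => a m / z ^ m) ∧
          Complex.exp (∑' m : ℕ, a m / z ^ m) = deriv ψ z) ∧
        ∃ c r₀ : ℝ, 0 < c ∧ 1 < r₀ ∧ ∀ r : ℝ, 1 < r → r < r₀ →
          ENNReal.ofReal c ≤ MeasureTheory.volume {θ : ℝ | θ ∈ Set.Ioc 0 (2 * Real.pi) ∧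
            c ≤ (r - 1) * ‖deriv (deriv ψ) (r * Complex.exp (θ * Complex.I)) /
              deriv ψ (r * Complex.exp (θ * Complex.I))‖} ∧
          c * Real.log (1 / (r - 1)) ≤ (2 * Real.pi)⁻¹ * ∫ θ in (0 : ℝ)..2 * Real.pi,
            ‖∑' m : ℕ, a m / (r * Complex.exp (θ * Complex.I)) ^ m‖ ^ 2 := by
  obtain ⟨β, hβ⟩ := exists_beta (d := 2) le_rfl
  refine ⟨⟨_, exteriorMap_of_beta hβ⟩, ?_⟩
  intro ψ hψ
  obtain ⟨a, h0, h1, -, c, r₀, hc, hr₀, h3⟩ := Pool.Agent.TH653.MB.main (d := 2) le_rfl hψ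
  exact ⟨a, h0, h1, c, r₀, hc, hr₀, fun r hr hr' => ⟨(h3 r hr hr').1, (h3 r hr hr').2.1⟩⟩

end Pool.Agent.Results.MP_c6f924_an.DerivativeMeans
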